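import Pool.Agent.N245.BG.Stm

set_option autoImplicit false

/-! # Project BG, step POLY: polynomial growth from aligned blocks -/

namespace Pool.Agent.N434.BG

open Complex Metric Set Filter Topology Pool.Agent.H712R2 Pool.Agent.H713R2 N62a1eb23
open Pool.Agent.Y736.HL Pool.Agent.N245.BG

theorem deriv_le {c : ℂ} {p : ℕ} {U : Set ℂ} {C r : ℝ} (hr : 0 < r)
    (hball : ∀ n : ℕ, ball (P 2 (n * p) c) r ⊆ U)
    (hdiam : ∀ z ∈ U, ∀ z' ∈ U, ‖(fc 2 c)^[p] z - (fc 2 c)^[p] z'‖ ≤ C * r) (i : ℕ) :
    LL c (p * i) (p * i + p) ≤ C := by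
  rw [← norm_deriv_iter]
  have h1 : MapsTo ((fc 2 c)^[p]) (ball (P 2 (p * i) c) r)
      (closedBall ((fc 2 c)^[p] (P 2 (p * i) c)) (C * r)) := by
    intro z hz
    have hb := hball i
    rw [Nat.mul_comm] at hb
    rw [mem_closedBall, dist_eq_norm]
    exact hdiam z (hb hz) _ (hb (mem_ball_self hr))
  have h2 := Complex.norm_deriv_le_div_of_mapsTo_ball
    (differentiable_iter c p).differentiableOn h1 hr
  rwa [mul_div_assoc, div_self hr.ne', mul_one] at h2

theorem block {c : ℂ} {q : ℕ} {D : ℝ} (hD : 0 ≤ D)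
    (h : ∀ i, LL c (q * i) (q * i + q) ≤ D) (i s : ℕ) : LL c (q * i) (q * (i + s)) ≤ D ^ s := by
  induction s with
  | zero => simp [LL_self]
  | succ s ih =>
    rw [← LL_mul c (k := q * (i + s)) (Nat.mul_le_mul_left _ (by omega))
      (Nat.mul_le_mul_left _ (by omega))]
    have h2 := h (i + s)
    rw [show q * (i + s) + q = q * (i + (s + 1)) by ring] at h2
    calc _ ≤ D ^ s * D := mul_le_mul ih h2 (LL_nonneg _ _ _) (by positivity)
      _ = D ^ (s + 1) := by rw [pow_succ]

theorem poly : S_POLY := by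
  intro c C B q hc hq0 hdvd hlt hB hgeo
  obtain ⟨D, hCD, hD4⟩ : ∃ D : ℝ, C ≤ D ∧ 4 ≤ D := ⟨max C 4, le_max_left _ _, le_max_right _ _⟩
  have hD0 : 0 ≤ D := by linarith
  have hD1 : 1 ≤ D := by linarith
  have hLL : ∀ k i, LL c (q k * i) (q k * i + q k) ≤ D := by
    intro k i
    obtain ⟨U, r, hr, hb, hd⟩ := hgeo k
    exact (deriv_le hr hb hd i).trans hCD
  have hbl : ∀ k i s, LL c (q k * i) (q k * (i + s)) ≤ D ^ s := fun k i s => block hD0 (hLL k) i s
  have hpos : ∀ k, 0 < q k := by
    intro k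
    cases k with
    | zero => omega
    | succ k => exact (Nat.zero_le _).trans_lt (hlt k)
  have hquot : ∀ k, ∃ e, q (k + 1) = q k * e ∧ 2 ≤ e ∧ e ≤ B := by
    intro k
    obtain ⟨e, he⟩ := hdvd k
    refine ⟨e, he, ?_, ?_⟩
    · by_contra hcon
      have h1 : e ≤ 1 := by omega
      have h2 : q k * e ≤ q k * 1 := Nat.mul_le_mul_left _ h1
      have := hlt k
      omega
    · have h1 := hB k
      rw [he, mul_comm B] at h1
      exact Nat.le_of_mul_le_mul_left h1 (hpos k)
  have h2k : ∀ k, 2 ^ k ≤ q k := by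
    intro k
    induction k with
    | zero => simp [hq0]
    | succ k ih =>
      obtain ⟨e, he, he2, -⟩ := hquot k
      rw [he, pow_succ]
      exact Nat.mul_le_mul ih he2
  -- from the left
  have ha : ∀ k a t, t < q k → LL c (q k * a) (q k * a + t) ≤ D ^ (B * k) := by
    intro k
    induction k with
    | zero =>
      intro a t ht
      have : t = 0 := by omega
      simp [this, LL_self]
    | succ k ih =>
      intro a t ht
      obtain ⟨e, he, -, heB⟩ := hquot k
      obtain ⟨s, hs⟩ : ∃ s, s = t / q k := ⟨_, rfl⟩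
      obtain ⟨t', ht'⟩ : ∃ t', t' = t % q k := ⟨_, rfl⟩
      have h1 : q k * s + t' = t := by rw [hs, ht']; exact Nat.div_add_mod t (q k)
      have h2 : t' < q k := by rw [ht']; exact Nat.mod_lt _ (hpos k)
      have h3 : s < e := by
        by_contra hcon
        have : q k * e ≤ q k * s := Nat.mul_le_mul_left _ (by omega)
        omega
      have e1 : q (k + 1) * a = q k * (e * a) := by rw [he]; ring
      have e2 : q (k + 1) * a + t = q k * (e * a + s) + t' := by rw [e1, ← h1]; ring
      rw [e2, e1, ← LL_mul c (k := q k * (e * a + s)) (Nat.mul_le_mul_left _ (by omega)) (by omega)]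
      calc _ ≤ D ^ s * D ^ (B * k) :=
            mul_le_mul (hbl k _ s) (ih _ _ h2) (LL_nonneg _ _ _) (by positivity)
        _ = D ^ (s + B * k) := by rw [pow_add]
        _ ≤ D ^ (B * (k + 1)) := by
            apply pow_le_pow_right₀ hD1
            have : B * (k + 1) = B * k + B := by ring
            omega
  -- from the right
  have hb : ∀ k b t, t < q k → t ≤ q k * b → LL c (q k * b - t) (q k * b) ≤ D ^ (B * k) := by
    intro k
    induction k with
    | zero =>
      intro a t ht _
      have : t = 0 := by omega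
      simp [this, LL_self]
    | succ k ih =>
      intro b t ht htb
      obtain ⟨e, he, -, heB⟩ := hquot k
      obtain ⟨s, hs⟩ : ∃ s, s = t / q k := ⟨_, rfl⟩
      obtain ⟨t', ht'⟩ : ∃ t', t' = t % q k := ⟨_, rfl⟩
      have h1 : q k * s + t' = t := by rw [hs, ht']; exact Nat.div_add_mod t (q k)
      have h2 : t' < q k := by rw [ht']; exact Nat.mod_lt _ (hpos k)
      have h3 : s < e := by
        by_contra hcon
        have : q k * e ≤ q k * s := Nat.mul_le_mul_left _ (by omega)
        omega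
      have e1 : q (k + 1) * b = q k * (e * b) := by rw [he]; ring
      rw [e1] at htb ⊢
      have h4 : s ≤ e * b := by
        apply Nat.le_of_mul_le_mul_left _ (hpos k)
        omega
      obtain ⟨d, hd⟩ := Nat.exists_eq_add_of_le h4
      have e2 : q k * (e * b) = q k * s + q k * d := by rw [hd]; ring
      have h5 : t' ≤ q k * d := by omega
      have e3 : q k * (e * b) - t = q k * d - t' := by omega
      have h6 : q k * d ≤ q k * (e * b) := by omega
      have e4 : q k * (e * b) = q k * (d + s) := by rw [e2]; ring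
      rw [e3, ← LL_mul c (k := q k * d) (by omega) h6]
      have h7 := hbl k d s
      rw [← e4] at h7
      calc _ ≤ D ^ (B * k) * D ^ s :=
            mul_le_mul (ih _ _ h2 h5) h7 (LL_nonneg _ _ _) (by positivity)
        _ = D ^ (B * k + s) := by rw [pow_add]
        _ ≤ D ^ (B * (k + 1)) := by
            apply pow_le_pow_right₀ hD1
            have : B * (k + 1) = B * k + B := by ring
            omega
  obtain ⟨β, hβ⟩ := pow_unbounded_of_one_lt (D ^ (2 * B)) (by norm_num : (1 : ℝ) < 2)
  refine ⟨D ^ B, β, one_le_pow₀ hD1, ?_⟩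
  intro m n hmn
  rcases hmn.eq_or_lt with h | hlt'
  · rw [← h, LL_self]
    simp only [Nat.sub_self, zero_add, Nat.cast_one, one_pow, mul_one]
    exact one_le_pow₀ hD1
  obtain ⟨l, hl⟩ : ∃ l, l = n - m := ⟨_, rfl⟩
  rw [← hl]
  have hl1 : 1 ≤ l := by omega
  obtain ⟨k, hk1, hk2⟩ : ∃ k, q k ≤ l ∧ l < q (k + 1) := by
    by_contra hcon
    push Not at hcon
    have hall : ∀ k, q k ≤ l := by
      intro k
      induction k with
      | zero => omega
      | succ k ih => exact hcon k ih
    have h1 := hall l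
    have h2 := h2k l
    have h3 : l < 2 ^ l := Nat.lt_two_pow_self
    omega
  have hqk := hpos k
  obtain ⟨b, hbd⟩ : ∃ b, b = n / q k := ⟨_, rfl⟩
  obtain ⟨a, had⟩ : ∃ a, a = (m + q k - 1) / q k := ⟨_, rfl⟩
  have g1 : q k * a + (m + q k - 1) % q k = m + q k - 1 := by
    rw [had]; exact Nat.div_add_mod _ _
  have g2 := Nat.mod_lt (m + q k - 1) hqk
  have g3 : q k * b + n % q k = n := by rw [hbd]; exact Nat.div_add_mod _ _
  have g4 := Nat.mod_lt n hqk
  have hma : m ≤ q k * a := by omega
  have hma2 : q k * a - m < q k := by omega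
  have hab : a ≤ b := by
    rw [hbd, Nat.le_div_iff_mul_le hqk, mul_comm]
    omega
  obtain ⟨d, hd⟩ := Nat.exists_eq_add_of_le hab
  have hdB : d ≤ B := by
    have h1 : q k * d ≤ B * q k := by
      have h2 : q k * b = q k * a + q k * d := by rw [hd]; ring
      have h3 := hB k
      omega
    rw [mul_comm B] at h1
    exact Nat.le_of_mul_le_mul_left h1 hqk
  have habq : q k * a ≤ q k * b := Nat.mul_le_mul_left _ hab
  rw [← LL_mul c (k := q k * a) hma (by omega), ← LL_mul c (m := q k * a) (k := q k * b) habq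
    (by omega)]
  have i1 : LL c m (q k * a) ≤ D ^ (B * k) := by
    have := hb k a (q k * a - m) hma2 (by omega)
    rwa [Nat.sub_sub_self hma] at this
  have i2 : LL c (q k * a) (q k * b) ≤ D ^ B := by
    rw [hd]
    exact (hbl k a d).trans (pow_le_pow_right₀ hD1 hdB)
  have i3 : LL c (q k * b) n ≤ D ^ (B * k) := by
    have := ha k b (n % q k) g4
    rwa [g3] at this
  have hkl : ((2 : ℝ) ^ k) ≤ ((l + 1 : ℕ) : ℝ) := by
    have h1 := h2k k
    have h2 : 2 ^ k ≤ l + 1 := by omega
    exact_mod_cast h2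
  calc LL c m (q k * a) * (LL c (q k * a) (q k * b) * LL c (q k * b) n)
      ≤ D ^ (B * k) * (D ^ B * D ^ (B * k)) := by
        apply mul_le_mul i1 _ (mul_nonneg (LL_nonneg _ _ _) (LL_nonneg _ _ _)) (by positivity)
        exact mul_le_mul i2 i3 (LL_nonneg _ _ _) (by positivity)
    _ = D ^ B * (D ^ (2 * B)) ^ k := by
        rw [← pow_mul, ← pow_add, ← pow_add, ← pow_add]
        ring_nf
    _ ≤ D ^ B * ((2 : ℝ) ^ β) ^ k := by gcongr
    _ = D ^ B * ((2 : ℝ) ^ k) ^ β := by rw [← pow_mul, ← pow_mul, mul_comm β k]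
    _ ≤ D ^ B * ((l + 1 : ℕ) : ℝ) ^ β := by gcongr

end Pool.Agent.N434.BG
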